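import Mathlib
import Pool.Agent.H93W.MinTwo

/-!
# The topological lower bound for the real Wronski map is sharp whenever `min (k, n - k) = 2`

For every odd `n ≥ 5` and `k = 2` or `k = n - 2` there is a real polynomial with `k (n - k)`
distinct roots on the Riemann sphere whose fibre under the Wronski map of `Gr(k, n)` has exactly
`σ_{k,n}` real points.
-/

set_option autoImplicit false

namespace Pool.Agent.Results.MP_f469be_ag.SharpMinTwo

open Pool.Agent.H93W

/-- `σ_{k,n}` is sharp for every odd `n` and every `k` with `min (k, n - k) = 2`. -/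
theorem result (k n : ℕ) (hn : Odd n) (hk : 2 ≤ k) (hkn : k + 2 ≤ n)
    (h : k = 2 ∨ n - k = 2) : Sharp k n :=
  sharp_min_two k n hn hk hkn h

end Pool.Agent.Results.MP_f469be_ag.SharpMinTwo
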